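import Mathlib

/-!
The order of polynomials with coefficients in `{0, 1} ∪ ℚ≥2`, compared pointwise on an
interval `[s, t]` with `1 < s < t`, is not universal for countable preorders.
-/

namespace Pool.Agent.Results.MP_387adc_co.NotUniversal

open Polynomial

/-- The set `𝒫` of polynomials whose coefficients all lie in `{0, 1} ∪ ℚ≥2`. -/
def PolySet : Set ℚ[X] := {p | ∀ i, p.coeff i = 0 ∨ p.coeff i = 1 ∨ 2 ≤ p.coeff i}

/-- The pointwise order on `[s, t]`. -/
def PolyLE (s t : ℝ) (p q : PolySet) : Prop :=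
  ∀ x : ℝ, s ≤ x → x ≤ t → aeval x p.1 ≤ aeval x q.1

/-- A polynomial with alternating signs at `n + 2` increasing points has degree at
least `n + 1`. -/
theorem alternating_bound (p : ℝ[X]) (n : ℕ) (y : Fin (n + 2) → ℝ) (hy : StrictMono y)
    (hs : ∀ k : Fin (n + 2), 0 < (-1 : ℝ) ^ (k : ℕ) * p.eval (y k)) : n + 1 ≤ p.natDegree := by
  have hp0 : p ≠ 0 := by
    rintro rfl
    have := hs 0
    simp at this
  have hroot : ∀ k : Fin (n + 1), ∃ r, y k.castSucc < r ∧ r < y k.succ ∧ p.eval r = 0 := by
    intro k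
    have hlt : y k.castSucc < y k.succ := hy Fin.castSucc_lt_succ
    have h1 := hs k.castSucc
    have h2 := hs k.succ
    simp only [Fin.val_castSucc, Fin.val_succ, pow_succ] at h1 h2
    have hcont : ContinuousOn (fun x => (-1 : ℝ) ^ (k : ℕ) * p.eval x)
        (Set.Icc (y k.castSucc) (y k.succ)) :=
      (continuous_const.mul p.continuous).continuousOn
    have h2' : (-1 : ℝ) ^ (k : ℕ) * p.eval (y k.succ) < 0 := by linarith
    obtain ⟨r, hr, hr0⟩ := intermediate_value_Ioo' hlt.le hcont
      (show (0 : ℝ) ∈ Set.Ioo _ _ from ⟨h2', h1⟩)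
    refine ⟨r, hr.1, hr.2, ?_⟩
    have hne : (-1 : ℝ) ^ (k : ℕ) ≠ 0 := pow_ne_zero _ (by norm_num)
    exact (mul_eq_zero.1 hr0).resolve_left hne
  choose r hr1 hr2 hr0 using hroot
  have hmono : StrictMono r := by
    intro a b hab
    have : y a.succ ≤ y b.castSucc := hy.monotone (by
      rw [Fin.le_def, Fin.val_succ, Fin.val_castSucc]
      exact hab)
    exact (hr2 a).trans_le (this.trans (hr1 b).le)
  have hsub : Finset.image r Finset.univ ⊆ p.roots.toFinset := by
    intro x hx
    obtain ⟨k, _, rfl⟩ := Finset.mem_image.1 hx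
    rw [Multiset.mem_toFinset, mem_roots hp0]
    exact hr0 k
  have hcard := Finset.card_le_card hsub
  rw [Finset.card_image_of_injective _ hmono.injective, Finset.card_univ, Fintype.card_fin] at hcard
  exact hcard.trans ((Multiset.toFinset_card_le _).trans (card_roots' p))

/-- Members of `𝒫` below a fixed one have bounded degree. -/
theorem degree_bound {s t : ℝ} (hs : 1 < s) (hst : s < t) (p : PolySet) :
    ∃ N : ℕ, ∀ q : PolySet, PolyLE s t q p → q.1.natDegree ≤ N := by
  obtain ⟨N, hN⟩ := pow_unbounded_of_one_lt (aeval s p.1) hs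
  refine ⟨N, fun q hq => ?_⟩
  by_contra hlt
  push Not at hlt
  have hq0 : q.1 ≠ 0 := by
    intro h
    rw [h, natDegree_zero] at hlt
    omega
  have hcoef : ∀ i, (0 : ℝ) ≤ (q.1.coeff i : ℝ) := by
    intro i
    rcases q.2 i with h | h | h
    · rw [h]; simp
    · rw [h]; simp
    · have : (0 : ℚ) ≤ q.1.coeff i := by linarith
      exact_mod_cast this
  have hlead : (1 : ℝ) ≤ (q.1.coeff q.1.natDegree : ℝ) := by
    rcases q.2 q.1.natDegree with h | h | h
    · exact absurd h (by simpa using hq0)
    · rw [h]; simp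
    · have : (1 : ℚ) ≤ q.1.coeff q.1.natDegree := by linarith
      exact_mod_cast this
  have hs0 : (0 : ℝ) < s := by linarith
  have h1 : s ^ q.1.natDegree ≤ aeval s q.1 := by
    rw [aeval_eq_sum_range]
    calc s ^ q.1.natDegree ≤ q.1.coeff q.1.natDegree • s ^ q.1.natDegree := by
          rw [Rat.smul_def]
          have := pow_pos hs0 q.1.natDegree
          nlinarith
      _ ≤ _ := by
          refine Finset.single_le_sum (f := fun i => q.1.coeff i • s ^ i) (fun i _ => ?_)
            (Finset.mem_range.2 (Nat.lt_succ_self _))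
          rw [Rat.smul_def]
          exact mul_nonneg (hcoef i) (pow_nonneg hs0.le _)
  have h2 := hq s le_rfl hst.le
  have h3 : s ^ N ≤ s ^ q.1.natDegree := pow_le_pow_right₀ hs.le hlt.le
  linarith

/-- The finite sets of natural numbers, ordered by inclusion and with a top element added, do
not embed into `𝒫`. -/
theorem no_embedding {s t : ℝ} (hs : 1 < s) (hst : s < t) (f : WithTop (Finset ℕ) → PolySet)
    (hf : ∀ a b, a ≤ b ↔ PolyLE s t (f a) (f b)) : False := by
  obtain ⟨N, hN⟩ := degree_bound hs hst (f ⊤)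
  let F : Finset ℕ → ℝ[X] := fun A => (f (A : WithTop (Finset ℕ))).1.map (algebraMap ℚ ℝ)
  have hFeval : ∀ A x, (F A).eval x = aeval x (f (A : WithTop (Finset ℕ))).1 := by
    intro A x
    simp [F, eval_map_algebraMap]
  have hFdeg : ∀ A, (F A).natDegree ≤ N := fun A =>
    natDegree_map_le.trans (hN _ ((hf _ _).1 le_top))
  have hFmono : ∀ A B, A ⊆ B → ∀ x, s ≤ x → x ≤ t → (F A).eval x ≤ (F B).eval x := by
    intro A B hAB x h1 h2
    rw [hFeval, hFeval]
    exact (hf _ _).1 (WithTop.coe_le_coe.2 hAB) x h1 h2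
  have hpt : ∀ i : Fin (N + 2), ∃ x, s ≤ x ∧ x ≤ t ∧
      (F ((Finset.range (N + 2)).erase i)).eval x < (F {(i : ℕ)}).eval x := by
    intro i
    by_contra hcon
    push Not at hcon
    have hle : (({(i : ℕ)} : Finset ℕ) : WithTop (Finset ℕ)) ≤
        (((Finset.range (N + 2)).erase i : Finset ℕ) : WithTop (Finset ℕ)) := by
      rw [hf]
      intro x h1 h2
      have := hcon x h1 h2
      rwa [hFeval, hFeval] at this
    have hsub := WithTop.coe_le_coe.1 hle
    have hmem := hsub (Finset.mem_singleton_self _)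
    simp at hmem
  choose x hx1 hx2 hx3 using hpt
  have key : ∀ (i : Fin (N + 2)) (C B : Finset ℕ), (i : ℕ) ∈ C → (i : ℕ) ∉ B →
      B ⊆ Finset.range (N + 2) → (F B).eval (x i) < (F C).eval (x i) := by
    intro i C B hC hB hBn
    have h1 := hFmono _ _ (Finset.singleton_subset_iff.2 hC) (x i) (hx1 i) (hx2 i)
    have h2 := hFmono B ((Finset.range (N + 2)).erase i)
      (fun j hj => Finset.mem_erase.2 ⟨fun h => hB (h ▸ hj), hBn hj⟩) (x i) (hx1 i) (hx2 i)
    have h3 := hx3 i
    linarith
  have hinj : Function.Injective x := by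
    intro i j hij
    by_contra hne
    have hne' : (i : ℕ) ≠ (j : ℕ) := fun h => hne (Fin.ext h)
    have h1 := key i {(i : ℕ)} {(j : ℕ)} (by simp) (by simpa using hne')
      (by intro k hk; rw [Finset.mem_singleton] at hk; subst hk; simp)
    have h2 := key j {(j : ℕ)} {(i : ℕ)} (by simp) (by simpa using hne'.symm)
      (by intro k hk; rw [Finset.mem_singleton] at hk; subst hk; simp)
    rw [hij] at h1
    linarith
  let σ := Tuple.sort x
  have hσ : StrictMono (x ∘ σ) :=
    (Tuple.monotone_sort x).strictMono_of_injective (hinj.comp σ.injective)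
  let C : Finset ℕ := (Finset.univ.filter fun k : Fin (N + 2) => Even (k : ℕ)).image
    fun k => (σ k : ℕ)
  let B : Finset ℕ := (Finset.univ.filter fun k : Fin (N + 2) => ¬ Even (k : ℕ)).image
    fun k => (σ k : ℕ)
  have hC : ∀ k : Fin (N + 2), (σ k : ℕ) ∈ C ↔ Even (k : ℕ) := by
    intro k
    simp only [C, Finset.mem_image, Finset.mem_filter, Finset.mem_univ, true_and]
    constructor
    · rintro ⟨l, hl, hlk⟩
      have : l = k := σ.injective (Fin.ext hlk)
      rwa [← this]
    · intro h
      exact ⟨k, h, rfl⟩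
  have hB : ∀ k : Fin (N + 2), (σ k : ℕ) ∈ B ↔ ¬ Even (k : ℕ) := by
    intro k
    simp only [B, Finset.mem_image, Finset.mem_filter, Finset.mem_univ, true_and]
    constructor
    · rintro ⟨l, hl, hlk⟩
      have : l = k := σ.injective (Fin.ext hlk)
      rwa [← this]
    · intro h
      exact ⟨k, h, rfl⟩
  have hCn : C ⊆ Finset.range (N + 2) := by
    intro j hj
    simp only [C, Finset.mem_image] at hj
    obtain ⟨k, _, rfl⟩ := hj
    simp
  have hBn : B ⊆ Finset.range (N + 2) := by
    intro j hj
    simp only [B, Finset.mem_image] at hj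
    obtain ⟨k, _, rfl⟩ := hj
    simp
  have hdeg := alternating_bound (F C - F B) N (x ∘ σ) hσ (by
    intro k
    rw [eval_sub, Function.comp_apply]
    by_cases hk : Even (k : ℕ)
    · have := key (σ k) C B ((hC k).2 hk) (fun h => (hB k).1 h hk) hBn
      rw [hk.neg_one_pow]
      linarith
    · have := key (σ k) B C ((hB k).2 hk) (fun h => hk ((hC k).1 h)) hCn
      rw [(Nat.not_even_iff_odd.1 hk).neg_one_pow]
      linarith)
  have hle := (natDegree_sub_le (F C) (F B)).trans (max_le (hFdeg C) (hFdeg B))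
  omega

/-- There is a countable partial order which, for no `1 < s < t`, admits an order-embedding
into `𝒫` with the pointwise order on `[s, t]`. -/
theorem result : ∃ (A : Type) (_ : PartialOrder A), Countable A ∧
    ∀ s t : ℝ, 1 < s → s < t →
      ¬ ∃ f : A → PolySet, ∀ a b : A, a ≤ b ↔ PolyLE s t (f a) (f b) := by
  refine ⟨WithTop (Finset ℕ), inferInstance, ?_, ?_⟩
  · exact inferInstanceAs (Countable (Option (Finset ℕ)))
  · rintro s t hs hst ⟨f, hf⟩
    exact no_embedding hs hst f hf

end Pool.Agent.Results.MP_387adc_co.NotUniversal
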